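import Pool.Agent.Helper32.Cotype.Final

/-!
`L_{4/3}[0,1] ⊗π L_{4/3}[0,1]` contains the spaces `ℓ_∞^n` uniformly, in fact almost isometrically.
-/

set_option autoImplicit false

namespace Pool.Agent.Results.MP_f9ce33_an.LinftyCopies

open MeasureTheory Pool.Agent.Cotype
open scoped BigOperators TensorProduct

/-- The algebraic tensor product of `L_{4/3}([0,1])` with itself. -/
abbrev L43 : Type := PiTensorProduct ℝ (fun _ : Fin 2 => Lp ℝ p43 mu01)

/-- The space `L_{4/3}([0,1])`. -/
def L : Type := Lp ℝ p43 mu01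

/-- The norm of Mathlib on `L`. -/
noncomputable instance instL1 : NormedAddCommGroup L :=
  (inferInstance : NormedAddCommGroup (Lp ℝ p43 mu01))

/-- The vector space structure of Mathlib on `L`. -/
noncomputable instance instL2 : NormedSpace ℝ L :=
  (inferInstance : NormedSpace ℝ (Lp ℝ p43 mu01))

/-- The algebraic tensor product of `L` with itself. -/
def TT : Type := PiTensorProduct ℝ (fun _ : Fin 2 => L)

noncomputable instance instT1 : AddCommGroup TT :=
  (inferInstance : AddCommGroup (PiTensorProduct ℝ (fun _ : Fin 2 => L)))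

noncomputable instance instT2 : Module ℝ TT :=
  (inferInstance : Module ℝ (PiTensorProduct ℝ (fun _ : Fin 2 => L)))

/-- The projective norm (in Mathlib it is the norm of `PiTensorProduct`). -/
noncomputable def piNorm (u : TT) : ℝ := @norm (PiTensorProduct ℝ (fun _ : Fin 2 => L)) _ u

theorem exists_eps {η : ℝ} (h0 : 0 < η) (h1 : η ≤ 1) (m : ℕ) :
    ∃ ε : ℝ, 0 < ε ∧ ε < 1 ∧ 1 - η ≤ (1 - ε) ^ m := by
  refine ⟨η / (2 * ((m : ℝ) + 1)), by positivity, ?_, ?_⟩
  · rw [div_lt_one (by positivity)]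
    have : (0 : ℝ) ≤ (m : ℝ) := by positivity
    linarith
  · have h := one_add_mul_le_pow (a := -(η / (2 * ((m : ℝ) + 1)))) (by
      have : η / (2 * ((m : ℝ) + 1)) ≤ 1 := by
        rw [div_le_one (by positivity)]
        have : (0 : ℝ) ≤ (m : ℝ) := by positivity
        linarith
      linarith) m
    rw [← sub_eq_add_neg] at h
    refine le_trans ?_ h
    have h2 : (m : ℝ) * (η / (2 * ((m : ℝ) + 1))) ≤ η := by
      rw [mul_div_assoc', div_le_iff₀ (by positivity)]
      have : (0 : ℝ) ≤ (m : ℝ) * η := by positivity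
      nlinarith
    linarith

theorem copies (n : ℕ) {η : ℝ} (h0 : 0 < η) (h1 : η ≤ 1) : ∃ x : Fin n → L43,
    (∀ k, 1 - η ≤ ‖x k‖) ∧
    ∀ δ : Fin n → ℝ, (∀ i, δ i = 1 ∨ δ i = -1) → ‖∑ k, δ k • x k‖ ≤ 1 := by
  classical
  obtain ⟨ε, hε, hε1, hεn⟩ := exists_eps h0 h1 (n * n)
  obtain ⟨X, iX, iN, u, T, hT, hTu, hPB⟩ := core3 ε hε
  let P := Fin n × Fin n
  obtain ⟨ι, E, hι, hE, hEι⟩ := lp_embed (P → X)
  let U : Fin n → (P → X) → (P → X) → ℝ := fun i x y => ∏ p, u (code i p) (x p) (y p)
  refine ⟨fun i => tens ι (U i), fun k => ?_, fun δ hδ => ?_⟩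
  · have hBB : BB (fun (x y : P → X) => ∏ p, T (code k p) (x p) (y p)) :=
      BB_pi (fun p => T (code k p)) (fun p => hT _)
    have h1 := pair_le ι E hE hEι _ (U k) hBB
    refine le_trans ?_ h1
    have h2 := prod_pair (fun p : P => T (code k p)) (fun p => u (code k p))
    rw [h2]
    calc 1 - η ≤ (1 - ε) ^ (n * n) := hεn
      _ = ∏ _p : P, (1 - ε) := by simp [P]
      _ ≤ _ := Finset.prod_le_prod (fun _ _ => by linarith) (fun p _ => hTu _)
  · rw [← tens_linear ι δ U]
    exact tens_le ι hι _ (riesz u hPB n δ hδ)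

/-- a bound on the vertices of the cube gives the bound on the cube -/
theorem cube {n : ℕ} (x : Fin n → L43)
    (hx : ∀ δ : Fin n → ℝ, (∀ i, δ i = 1 ∨ δ i = -1) → ‖∑ k, δ k • x k‖ ≤ 1)
    (s : Finset (Fin n)) : ∀ a : Fin n → ℝ, (∀ i ∈ s, |a i| ≤ 1) → (∀ i, i ∉ s → a i = 1 ∨ a i = -1) →
      ‖∑ k, a k • x k‖ ≤ 1 := by
  classical
  induction s using Finset.induction_on with
  | empty => exact fun a _ ha => hx a fun i => ha i (Finset.notMem_empty i)
  | insert j s hj ih =>
    intro a ha1 ha2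
    have hupd : ∀ c : ℝ, (c = 1 ∨ c = -1) → ‖∑ k, Function.update a j c k • x k‖ ≤ 1 := by
      intro c hc
      refine ih _ (fun i hi => ?_) fun i hi => ?_
      · have hij : i ≠ j := fun h => hj (h ▸ hi)
        rw [Function.update_of_ne hij]
        exact ha1 i (Finset.mem_insert_of_mem hi)
      · by_cases hij : i = j
        · subst hij
          rw [Function.update_self]
          exact hc
        · rw [Function.update_of_ne hij]
          refine ha2 i fun h => ?_
          rcases Finset.mem_insert.mp h with h | h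
          · exact hij h
          · exact hi h
    have haj := abs_le.mp (ha1 j (Finset.mem_insert_self j s))
    have e : ∑ k, a k • x k = ((1 + a j) / 2) • ∑ k, Function.update a j 1 k • x k +
        ((1 - a j) / 2) • ∑ k, Function.update a j (-1) k • x k := by
      rw [Finset.smul_sum, Finset.smul_sum, ← Finset.sum_add_distrib]
      refine Finset.sum_congr rfl fun k _ => ?_
      rw [smul_smul, smul_smul, ← add_smul]
      congr 1
      by_cases hk : k = j
      · subst hk
        rw [Function.update_self, Function.update_self]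
        ring
      · rw [Function.update_of_ne hk, Function.update_of_ne hk]
        ring
    rw [e]
    refine (norm_add_le _ _).trans ?_
    rw [norm_smul, norm_smul, Real.norm_of_nonneg (by linarith), Real.norm_of_nonneg (by linarith)]
    have h1 := mul_le_mul_of_nonneg_left (hupd 1 (Or.inl rfl)) (by linarith : 0 ≤ (1 + a j) / 2)
    have h2 := mul_le_mul_of_nonneg_left (hupd (-1) (Or.inr rfl)) (by linarith : 0 ≤ (1 - a j) / 2)
    linarith

theorem result_aux (n : ℕ) (η : ℝ) (hη : 0 < η) : ∃ x : Fin n → L43, ∀ a : Fin n → ℝ,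
    (1 - η) * ‖a‖ ≤ PiTensorProduct.projectiveSeminorm (∑ k, a k • x k) ∧
      PiTensorProduct.projectiveSeminorm (∑ k, a k • x k) ≤ ‖a‖ := by
  classical
  obtain ⟨x, hx1, hx2⟩ := copies n (η := min η 1 / 2) (by positivity)
    (by have := min_le_right η 1; linarith)
  let T : (Fin n → ℝ) →ₗ[ℝ] L43 := Fintype.linearCombination ℝ x
  have hT : ∀ a, T a = ∑ k, a k • x k := fun a => Fintype.linearCombination_apply ℝ x a
  have hup : ∀ a : Fin n → ℝ, ‖T a‖ ≤ ‖a‖ := by
    intro a
    rcases eq_or_ne ‖a‖ 0 with h | h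
    · have ha : a = 0 := norm_eq_zero.mp h
      rw [ha, map_zero, norm_zero, norm_zero]
    · have hpos : 0 < ‖a‖ := lt_of_le_of_ne (norm_nonneg _) (Ne.symm h)
      have h1 := cube x hx2 Finset.univ (fun i => ‖a‖⁻¹ * a i) (fun i _ => by
        rw [abs_mul, abs_inv, abs_norm, inv_mul_le_iff₀ hpos, mul_one]
        exact norm_le_pi_norm a i) (fun i hi => absurd (Finset.mem_univ i) hi)
      have e : ∑ k, (‖a‖⁻¹ * a k) • x k = ‖a‖⁻¹ • T a := by
        rw [hT, Finset.smul_sum]
        exact Finset.sum_congr rfl fun k _ => by rw [smul_smul]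
      rw [e, norm_smul, norm_inv, norm_norm, inv_mul_le_iff₀ hpos, mul_one] at h1
      exact h1
  refine ⟨x, fun a => ?_⟩
  rw [← hT a]
  refine ⟨?_, hup a⟩
  show (1 - η) * ‖a‖ ≤ ‖T a‖
  rcases eq_or_ne ‖a‖ 0 with h | h
  · rw [h, mul_zero]
    exact norm_nonneg _
  · have hpos : 0 < ‖a‖ := lt_of_le_of_ne (norm_nonneg _) (Ne.symm h)
    obtain ⟨k, hk⟩ : ∃ k, ‖a‖ = |a k| := by
      by_contra hcon
      push Not at hcon
      have hlt : ∀ i, ‖a i‖ < ‖a‖ := fun i =>
        lt_of_le_of_ne (norm_le_pi_norm a i) fun h => hcon i h.symm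
      exact absurd ((pi_norm_lt_iff hpos).mpr hlt) (lt_irrefl _)
    set b : Fin n → ℝ := Function.update (fun i => -a i) k (a k) with hb
    have hbn : ‖b‖ ≤ ‖a‖ := by
      refine (pi_norm_le_iff_of_nonneg (norm_nonneg a)).mpr fun i => ?_
      by_cases hik : i = k
      · subst hik
        rw [hb, Function.update_self]
        exact norm_le_pi_norm a i
      · rw [hb, Function.update_of_ne hik, norm_neg]
        exact norm_le_pi_norm a i
    have hab : T a + T b = (2 * a k) • x k := by
      rw [hT, hT, ← Finset.sum_add_distrib, Finset.sum_eq_single k]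
      · rw [hb, Function.update_self, ← add_smul, two_mul]
      · intro j _ hj
        rw [hb, Function.update_of_ne hj, ← add_smul, add_neg_cancel, zero_smul]
      · intro hkn
        exact absurd (Finset.mem_univ k) hkn
    have h1 : ‖(2 * a k) • x k‖ ≤ ‖T a‖ + ‖T b‖ := hab ▸ norm_add_le _ _
    rw [norm_smul, Real.norm_eq_abs, abs_mul, ← hk, abs_of_pos (by norm_num : (0 : ℝ) < 2)] at h1
    have h2 := hup b
    have h3 := mul_le_mul_of_nonneg_left (hx1 k) (by positivity : 0 ≤ 2 * ‖a‖)
    have h4 : min η 1 * ‖a‖ ≤ η * ‖a‖ := mul_le_mul_of_nonneg_right (min_le_left _ _) hpos.le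
    nlinarith

/-- For all `n` and `η > 0` there are `x 0, …, x (n - 1)` in the algebraic tensor product of
`L_{4/3}([0,1])` with itself such that `(1 - η) max |a k| ≤ ‖∑ a k x k‖_π ≤ max |a k|` for all real `a k`. -/
theorem result (n : ℕ) (η : ℝ) (hη : 0 < η) : ∃ x : Fin n → TT, ∀ a : Fin n → ℝ,
    (1 - η) * ‖a‖ ≤ piNorm (∑ k, a k • x k) ∧ piNorm (∑ k, a k • x k) ≤ ‖a‖ := by
  obtain ⟨x, hx⟩ := result_aux n η hη
  exact ⟨x, hx⟩

end Pool.Agent.Results.MP_f9ce33_an.LinftyCopies
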